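import Pool.Agent.K3h48.AC.Pos

/-!
# A modified Aleksandrov-Clark basis of the model space of `z ^ n`
-/

set_option autoImplicit false

open MeasureTheory AddCircle
open scoped ENNReal ComplexConjugate

namespace Pool.Agent.K3h48.AC

noncomputable section

variable {n : ℕ}

/-- the primitive root of unity -/
def om (n : ℕ) : ℂ := Complex.exp (2 * Real.pi * Complex.I / n)

/-- the square root of its conjugate -/
def et (n : ℕ) : ℂ := Complex.exp (-(Real.pi * Complex.I / n))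

lemma om_prim (hn : n ≠ 0) : IsPrimitiveRoot (om n) n := Complex.isPrimitiveRoot_exp n hn

lemma norm_et : ‖et n‖ = 1 := by
  unfold et
  have e : -((Real.pi : ℂ) * Complex.I / n) = ((-(Real.pi / n) : ℝ) : ℂ) * Complex.I := by
    push_cast
    ring
  rw [e, Complex.norm_exp_ofReal_mul_I]

lemma norm_om (hn : n ≠ 0) : ‖om n‖ = 1 := (om_prim hn).norm'_eq_one hn

lemma et_sq : et n ^ 2 = conj (om n) := by
  unfold et om
  rw [← Complex.exp_nat_mul, ← Complex.exp_conj]
  congr 1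
  rw [map_div₀, map_mul, map_mul, Complex.conj_I, Complex.conj_ofReal, map_natCast, map_ofNat]
  push_cast
  ring

/-- the points -/
def ze (n : ℕ) (j : Fin n) : ℂ := om n ^ (j : ℕ)

/-- the unimodular factors -/
def wf (n : ℕ) (j : Fin n) : ℂ := et n ^ (j : ℕ)

lemma norm_ze (j : Fin n) : ‖ze n j‖ = 1 := by
  unfold ze
  rw [norm_pow, norm_om (by have := j.2; omega), one_pow]

lemma norm_wf (j : Fin n) : ‖wf n j‖ = 1 := by
  unfold wf
  rw [norm_pow, norm_et, one_pow]

lemma ze_pow (j : Fin n) : ze n j ^ n = 1 := by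
  have hn : n ≠ 0 := by have := j.2; omega
  unfold ze
  rw [← pow_mul, mul_comm, pow_mul, (om_prim hn).pow_eq_one, one_pow]

lemma wf_sq (j : Fin n) : wf n j ^ 2 = conj (ze n j) := by
  unfold wf ze
  rw [← pow_mul, mul_comm, pow_mul, et_sq, map_pow]

lemma ze_inj : Function.Injective (ze n) := by
  intro i j h
  have hn : n ≠ 0 := by have := j.2; omega
  exact Fin.ext ((om_prim hn).pow_inj i.2 j.2 h)

/-- the coefficients -/
def UU (n : ℕ) : Matrix (Fin n) (Fin n) ℂ :=
  Matrix.of fun k j => wf n j * conj (ze n j) ^ (k : ℕ) * (((√(n : ℝ))⁻¹ : ℝ) : ℂ)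

lemma geo {x : ℂ} (hx : x ^ n = 1) (h1 : x ≠ 1) : ∑ k : Fin n, x ^ (k : ℕ) = 0 := by
  rw [Fin.sum_univ_eq_sum_range (fun k => x ^ k) n, geom_sum_eq h1, hx, sub_self, zero_div]

lemma UU_unitary : (UU n).conjTranspose * UU n = 1 := by
  ext i j
  have hn : n ≠ 0 := by have := j.2; omega
  have hs : (((√(n : ℝ))⁻¹ : ℝ) : ℂ) * (((√(n : ℝ))⁻¹ : ℝ) : ℂ) = (n : ℂ)⁻¹ := by
    rw [← Complex.ofReal_mul, ← mul_inv, Real.mul_self_sqrt (by positivity)]
    push_cast
    rfl
  rw [Matrix.mul_apply, Matrix.one_apply]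
  have e : ∀ k : Fin n, (UU n).conjTranspose i k * UU n k j =
      (conj (wf n i) * wf n j * (n : ℂ)⁻¹) * (ze n i * conj (ze n j)) ^ (k : ℕ) := by
    intro k
    rw [Matrix.conjTranspose_apply]
    change conj (wf n i * conj (ze n i) ^ (k : ℕ) * (((√(n : ℝ))⁻¹ : ℝ) : ℂ)) *
      (wf n j * conj (ze n j) ^ (k : ℕ) * (((√(n : ℝ))⁻¹ : ℝ) : ℂ)) = _
    rw [map_mul, map_mul, map_pow, Complex.conj_conj, Complex.conj_ofReal, mul_pow]
    linear_combination (conj (wf n i) * ze n i ^ (k : ℕ) * wf n j * conj (ze n j) ^ (k : ℕ)) * hs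
  simp only [e]
  rw [← Finset.mul_sum]
  by_cases hij : i = j
  · subst hij
    have h1 : ze n i * conj (ze n i) = 1 := by
      rw [mul_comm]; exact conj_mul_self (norm_ze i)
    have h2 := conj_mul_self (norm_wf i)
    have hn' : (n : ℂ) ≠ 0 := by exact_mod_cast hn
    rw [if_pos rfl, h1, h2]
    simp [hn']
  · rw [if_neg hij, geo, mul_zero]
    · rw [mul_pow, ze_pow, ← map_pow, ze_pow, map_one, mul_one]
    · intro h
      apply hij
      apply ze_inj
      have h2 := conj_mul_self (norm_ze j)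
      linear_combination (ze n j) * h - (ze n i) * h2

/-- the kernel is a polynomial -/
lemma kern_eq (j : Fin n) {z : ℂ} (hz : 1 - conj (ze n j) * z ≠ 0) :
    kern (pw n) 1 (ze n j) z = ∑ k : Fin n, conj (ze n j) ^ (k : ℕ) * z ^ (k : ℕ) := by
  have h1 : conj (ze n j) * z ≠ 1 := fun h => hz (by rw [h, sub_self])
  have h2 : ∑ k : Fin n, conj (ze n j) ^ (k : ℕ) * z ^ (k : ℕ) =
      ∑ k ∈ Finset.range n, (conj (ze n j) * z) ^ k := by
    rw [← Fin.sum_univ_eq_sum_range (fun k => (conj (ze n j) * z) ^ k) n]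
    exact Finset.sum_congr rfl fun k _ => (mul_pow _ _ _).symm
  rw [h2, geom_sum_eq h1, mul_pow, ← map_pow, ze_pow, map_one, one_mul]
  unfold kern pw
  rw [map_one, one_mul, ← neg_sub (z ^ n) 1, ← neg_sub (conj (ze n j) * z) 1, neg_div_neg_eq]

lemma fn_sum_mono (s : Finset (Fin n)) (c : Fin n → ℂ) :
    fn (∑ k ∈ s, c k • mono ((k : ℕ) : ℤ)) =ᵐ[σ] fun t => ∑ k ∈ s, c k * pt t ^ (k : ℕ) := by
  induction s using Finset.induction_on with
  | empty =>
    simp only [Finset.sum_empty]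
    have h3 := Lp.coeFn_zero ℂ 2 σ
    filter_upwards [h3] with t ht
    exact ht
  | insert a s ha ih =>
    rw [Finset.sum_insert ha]
    filter_upwards [fn_add (c a • mono ((a : ℕ) : ℤ)) (∑ k ∈ s, c k • mono ((k : ℕ) : ℤ)),
      fn_smul (c a) (mono ((a : ℕ) : ℤ)), fn_mono ((a : ℕ) : ℤ), ih] with t h1 h2 h3 h4
    rw [h1, h2, h3, h4, Finset.sum_insert ha, pt_pow]

lemma kernNorm_eq (j : Fin n) : kernNorm (pw n) 1 (ze n j) = √n := by
  unfold kernNorm
  congr 1
  -- the kernel as an element of `L²`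
  let f : L2 := ∑ k : Fin n, (conj (ze n j) ^ (k : ℕ)) • mono ((k : ℕ) : ℤ)
  have hf : fn f =ᵐ[σ] fun t => kern (pw n) 1 (ze n j) (pt t) := by
    filter_upwards [fn_sum_mono Finset.univ (fun k : Fin n => conj (ze n j) ^ (k : ℕ)),
      ae_ne (ze n j)] with t h1 h2
    rw [h1, kern_eq j h2]
  have ho : Orthonormal ℂ (fun i : Fin n => mono ((i : ℕ) : ℤ)) := (mb_onb n).1
  have h1 : inner ℂ f f = (n : ℂ) := by
    change inner ℂ (∑ k : Fin n, (conj (ze n j) ^ (k : ℕ)) • mono ((k : ℕ) : ℤ))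
      (∑ k : Fin n, (conj (ze n j) ^ (k : ℕ)) • mono ((k : ℕ) : ℤ)) = (n : ℂ)
    rw [ho.inner_sum (fun k => conj (ze n j) ^ (k : ℕ)) (fun k => conj (ze n j) ^ (k : ℕ))
      Finset.univ]
    have e : ∀ k : Fin n, conj (conj (ze n j) ^ (k : ℕ)) * conj (ze n j) ^ (k : ℕ) = 1 := by
      intro k
      apply conj_mul_self
      rw [norm_pow, RCLike.norm_conj, norm_ze, one_pow]
    simp only [e]
    simp
  rw [inner_fn] at h1
  have h2 : ((∫ t : Circ, ‖kern (pw n) 1 (ze n j) (pt t)‖ ^ 2 ∂σ : ℝ) : ℂ) = (n : ℂ) := by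
    rw [← h1, ← integral_complex_ofReal]
    apply integral_congr_ae
    filter_upwards [hf] with t ht
    rw [ht, Complex.conj_mul']
    push_cast
    rfl
  exact_mod_cast h2

lemma isModifiedAC : IsModifiedAC (pw n) (newBasis (UU n) (mb n)) := by
  refine ⟨1, ze n, wf n, norm_one, ze_inj, fun j => ⟨norm_ze j, ze_pow j, norm_wf j, ?_⟩,
    fun j => ?_⟩
  · rw [one_mul, wf_sq]
  · have e : ((newBasis (UU n) (mb n) j : model (pw n)) : L2) =
        ∑ k : Fin n, UU n k j • mono ((k : ℕ) : ℤ) := newBasis_coe _ _ _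
    filter_upwards [fn_sum_mono Finset.univ (fun k : Fin n => UU n k j),
      ae_ne (ze n j)] with t h1 h2
    rw [e, h1, kern_eq j h2, kernNorm_eq, Finset.sum_div, Finset.mul_sum]
    refine Finset.sum_congr rfl fun k _ => ?_
    change wf n j * conj (ze n j) ^ (k : ℕ) * (((√(n : ℝ))⁻¹ : ℝ) : ℂ) * _ = _
    rw [Complex.ofReal_inv]
    ring

theorem rep_of_toep (a b c : ℂ) :
    HasModifiedACRepresentation ((UU n).conjTranspose * toep n a b c * UU n) :=
  ⟨pw n, syf a b c, TT (pw n) a b c, newBasis (UU n) (mb n), isBlaschke_pw n, isTTO _ a b c,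
    newBasis_onb UU_unitary (mb_onb n), isModifiedAC,
    newBasis_matrix (isTTO _ a b c) (UU n) (toep_matrix n a b c)⟩

theorem rep_scalar (a : ℂ) : HasModifiedACRepresentation (a • (1 : Matrix (Fin n) (Fin n) ℂ)) := by
  have h := rep_of_toep (n := n) a 0 0
  have e : toep n a 0 0 = a • (1 : Matrix (Fin n) (Fin n) ℂ) := by
    ext i j
    simp only [toep, Matrix.of_apply, ite_self, add_zero, Matrix.smul_apply, Matrix.one_apply,
      smul_eq_mul, mul_ite, mul_one, mul_zero, Fin.ext_iff]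
  rw [e, Matrix.mul_smul, Matrix.mul_one, Matrix.smul_mul, UU_unitary] at h
  exact h

lemma om_two : om 2 = -1 := by
  have h : om 2 = Complex.exp (Real.pi * Complex.I) := by
    unfold om
    congr 1
    push_cast
    ring
  rw [h, Complex.exp_pi_mul_I]

lemma et_two : et 2 = -Complex.I := by
  have h : et 2 = Complex.exp (-(Real.pi / 2 * Complex.I)) := by
    unfold et
    congr 1
    push_cast
    ring
  rw [h, Complex.exp_neg, Complex.exp_pi_div_two_mul_I, Complex.inv_I]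

theorem rep_two {M : Matrix (Fin 2) (Fin 2) ℂ} (hM : M.IsSymm) : HasModifiedACRepresentation M := by
  have h := rep_of_toep (n := 2) ((M 0 0 + M 1 1) / 2)
    ((M 0 0 - M 1 1) / 2 + Complex.I * M 0 1) ((M 0 0 - M 1 1) / 2 - Complex.I * M 0 1)
  have hs : (((√2)⁻¹ : ℝ) : ℂ) * (((√2)⁻¹ : ℝ) : ℂ) = 1 / 2 := by
    have h0 : (√2)⁻¹ * (√2)⁻¹ = (1 / 2 : ℝ) := by
      rw [← mul_inv, Real.mul_self_sqrt (by norm_num)]
      norm_num
    rw [← Complex.ofReal_mul, h0]
    norm_num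
  have hI := Complex.I_mul_I
  have hsy : M 1 0 = M 0 1 := hM.apply 0 1
  have e : (UU 2).conjTranspose * toep 2 ((M 0 0 + M 1 1) / 2)
    ((M 0 0 - M 1 1) / 2 + Complex.I * M 0 1) ((M 0 0 - M 1 1) / 2 - Complex.I * M 0 1) * UU 2 =
      M := by
    have u00 : UU 2 0 0 = (((√2)⁻¹ : ℝ) : ℂ) := by simp [UU, wf, ze]
    have u10 : UU 2 1 0 = (((√2)⁻¹ : ℝ) : ℂ) := by simp [UU, wf, ze]
    have u01 : UU 2 0 1 = -Complex.I * (((√2)⁻¹ : ℝ) : ℂ) := by simp [UU, wf, ze, et_two]
    have u11 : UU 2 1 1 = Complex.I * (((√2)⁻¹ : ℝ) : ℂ) := by simp [UU, wf, ze, et_two, om_two]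
    have t00 : ∀ a b c : ℂ, toep 2 a b c 0 0 = a := fun a b c => by simp [toep]
    have t01 : ∀ a b c : ℂ, toep 2 a b c 0 1 = c := fun a b c => by simp [toep]
    have t10 : ∀ a b c : ℂ, toep 2 a b c 1 0 = b := fun a b c => by simp [toep]
    have t11 : ∀ a b c : ℂ, toep 2 a b c 1 1 = a := fun a b c => by simp [toep]
    set q : ℂ := (((√2)⁻¹ : ℝ) : ℂ) with hq
    have hqc : conj q = q := Complex.conj_ofReal _
    have hI' : conj Complex.I = -Complex.I := Complex.conj_I
    ext i j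
    rw [Matrix.mul_apply, Fin.sum_univ_two, Matrix.mul_apply, Matrix.mul_apply, Fin.sum_univ_two,
      Fin.sum_univ_two]
    simp only [Matrix.conjTranspose_apply, RCLike.star_def]
    fin_cases i <;> fin_cases j
    · simp only [Fin.zero_eta, Fin.isValue, u00, u10, t00, t01, t10, t11, hqc]
      linear_combination (2 * M 0 0) * hs
    · simp only [Fin.zero_eta, Fin.mk_one, Fin.isValue, u00, u10, u01, u11, t00, t01, t10, t11, hqc]
      linear_combination (2 * M 0 1) * hs - (2 * q * q * M 0 1) * hI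
    · simp only [Fin.zero_eta, Fin.mk_one, Fin.isValue, u00, u10, u01, u11, t00, t01, t10, t11, hqc,
        map_mul, map_neg, hI', hsy]
      linear_combination (2 * M 0 1) * hs - (2 * q * q * M 0 1) * hI
    · simp only [Fin.zero_eta, Fin.mk_one, Fin.isValue, u00, u10, u01, u11, t00, t01, t10, t11, hqc,
        map_mul, map_neg, hI']
      linear_combination (2 * M 1 1) * hs - (2 * q * q * M 1 1) * hI
  rw [e] at h
  exact h

end

end Pool.Agent.K3h48.AC
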