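import Pool.Agent.K3h48.AC.Triple

/-!
# Complex symmetric matrices and real relations: the matrix version
-/

set_option autoImplicit false

namespace Pool.Agent.K3h48.AC

open Complex Matrix

/-- the matrix `Oᵀ M O` -/
noncomputable def conjBy {n : ℕ} (O : Matrix (Fin n) (Fin n) ℝ) (M : Matrix (Fin n) (Fin n) ℂ) :
    Matrix (Fin n) (Fin n) ℂ :=
  (O.map Complex.ofReal)ᵀ * M * O.map Complex.ofReal

lemma conjBy_symm {n : ℕ} (O : Matrix (Fin n) (Fin n) ℝ) {M : Matrix (Fin n) (Fin n) ℂ}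
    (hM : M.IsSymm) : (conjBy O M).IsSymm := by
  unfold Matrix.IsSymm conjBy
  rw [Matrix.transpose_mul, Matrix.transpose_mul, Matrix.transpose_transpose, hM.eq,
    Matrix.mul_assoc]

lemma conjBy_apply {n : ℕ} (O : Matrix (Fin n) (Fin n) ℝ) (M : Matrix (Fin n) (Fin n) ℂ)
    (i j : Fin n) : conjBy O M i j = ∑ l, ∑ k, (O k i : ℂ) * M k l * (O l j : ℂ) := by
  unfold conjBy
  rw [Matrix.mul_apply]
  refine Finset.sum_congr rfl fun l _ => ?_
  rw [Matrix.mul_apply, Finset.sum_mul]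
  refine Finset.sum_congr rfl fun k _ => ?_
  rw [Matrix.transpose_apply, Matrix.map_apply, Matrix.map_apply]

theorem exists_conj {n : ℕ} (h3 : 3 ≤ n) {M : Matrix (Fin n) (Fin n) ℂ} (hM : M.IsSymm)
    (hns : ∀ c : ℂ, M ≠ c • 1) :
    ∃ O : Matrix (Fin n) (Fin n) ℝ, Oᵀ * O = 1 ∧ ∀ r s t : ℝ,
      (r : ℂ) * conjBy O M ⟨0, by omega⟩ ⟨1, by omega⟩ +
        s * conjBy O M ⟨1, by omega⟩ ⟨2, by omega⟩ +
        t * conjBy O M ⟨0, by omega⟩ ⟨2, by omega⟩ = 0 → r = 0 ∨ s = 0 ∨ t = 0 := by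
  classical
  let E := EuclideanSpace ℝ (Fin n)
  let A : Matrix (Fin n) (Fin n) ℝ := M.map Complex.re
  let B : Matrix (Fin n) (Fin n) ℝ := M.map Complex.im
  let X : E →ₗ[ℝ] E := Matrix.toEuclideanLin A
  let Y : E →ₗ[ℝ] E := Matrix.toEuclideanLin B
  have hA : A.IsHermitian := by
    ext i j
    change (M j i).re = (M i j).re
    rw [hM.apply]
  have hB : B.IsHermitian := by
    ext i j
    change (M j i).im = (M i j).im
    rw [hM.apply]
  have hX : X.IsSymmetric := Matrix.isSymmetric_toEuclideanLin_iff.2 hA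
  have hY : Y.IsSymmetric := Matrix.isSymmetric_toEuclideanLin_iff.2 hB
  have hid : ∀ c : ℝ, Matrix.toEuclideanLin (c • (1 : Matrix (Fin n) (Fin n) ℝ)) =
      c • (LinearMap.id : E →ₗ[ℝ] E) := by
    intro c
    rw [map_smul]
    congr 1
    ext v i
    simp [Matrix.toEuclideanLin]
  have hns' : (∀ c : ℝ, X ≠ c • LinearMap.id) ∨ ∀ c : ℝ, Y ≠ c • LinearMap.id := by
    by_contra hcon
    push Not at hcon
    obtain ⟨⟨a, ha⟩, ⟨b, hb⟩⟩ := hcon
    have h1 : A = a • (1 : Matrix (Fin n) (Fin n) ℝ) := by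
      apply Matrix.toEuclideanLin.injective
      rw [hid]
      exact ha
    have h2 : B = b • (1 : Matrix (Fin n) (Fin n) ℝ) := by
      apply Matrix.toEuclideanLin.injective
      rw [hid]
      exact hb
    apply hns (⟨a, b⟩ : ℂ)
    ext i j
    have e1 := congrFun (congrFun h1 i) j
    have e2 := congrFun (congrFun h2 i) j
    change (M i j).re = _ at e1
    change (M i j).im = _ at e2
    apply Complex.ext
    · rw [e1]
      by_cases hij : i = j
      · subst hij; simp
      · simp [Matrix.one_apply, hij]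
    · rw [e2]
      by_cases hij : i = j
      · subst hij; simp
      · simp [Matrix.one_apply, hij]
  obtain ⟨u, v, w, ht, hbad⟩ := exists_bad (E := E) (by simp [E]) h3 hX hY hns'
  -- the orthonormal basis
  let f : Fin n → E := fun i => if i.1 = 0 then u else if i.1 = 1 then v else w
  let s : Set (Fin n) := {i | i.1 < 3}
  have hf : Orthonormal ℝ (s.domRestrict f) := by
    rw [orthonormal_iff_ite]
    rintro ⟨⟨i, hi⟩, hi3⟩ ⟨⟨j, hj⟩, hj3⟩
    have hi3' : i < 3 := hi3
    have hj3' : j < 3 := hj3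
    have hvu : inner ℝ v u = (0 : ℝ) := by rw [real_inner_comm, ht.uv]
    have hwu : inner ℝ w u = (0 : ℝ) := by rw [real_inner_comm, ht.uw]
    have hwv : inner ℝ w v = (0 : ℝ) := by rw [real_inner_comm, ht.vw]
    have e : ((⟨⟨i, hi⟩, hi3⟩ : s) = ⟨⟨j, hj⟩, hj3⟩) ↔ i = j := by simp
    change inner ℝ (f ⟨i, hi⟩) (f ⟨j, hj⟩) = _
    simp only [f, e]
    have h1 := ht.uu
    have h2 := ht.vv
    have h3 := ht.ww
    rw [real_inner_self_eq_norm_sq] at h1 h2 h3
    interval_cases i <;> interval_cases j <;>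
      simp [h1, h2, h3, ht.uv, ht.uw, ht.vw, hvu, hwu, hwv]
  obtain ⟨b, hb⟩ := hf.exists_orthonormalBasis_extension_of_card_eq (by simp [E])
  have hb0 : b ⟨0, by omega⟩ = u := by
    rw [hb _ (by show (0 : ℕ) < 3; norm_num)]
    simp [f]
  have hb1 : b ⟨1, by omega⟩ = v := by
    rw [hb _ (by show (1 : ℕ) < 3; norm_num)]
    simp [f]
  have hb2 : b ⟨2, by omega⟩ = w := by
    rw [hb _ (by show (2 : ℕ) < 3; norm_num)]
    simp [f]
  let O : Matrix (Fin n) (Fin n) ℝ := Matrix.of fun i j => b j i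
  have hO : Oᵀ * O = 1 := by
    ext i j
    rw [Matrix.mul_apply, Matrix.one_apply]
    have h1 := orthonormal_iff_ite.1 b.orthonormal i j
    rw [← h1, PiLp.inner_apply]
    refine Finset.sum_congr rfl fun k _ => ?_
    simp [O, mul_comm]
  have hent : ∀ i j, conjBy O M i j = bm X Y (b i) (b j) := by
    intro i j
    have e1 : ∀ (C : Matrix (Fin n) (Fin n) ℝ) (x y : E),
        inner ℝ x (Matrix.toEuclideanLin C y) = (∑ l, ∑ k, x k * C k l * y l : ℝ) := by
      intro C x y
      rw [PiLp.inner_apply, Finset.sum_comm]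
      refine Finset.sum_congr rfl fun k _ => ?_
      have e : (Matrix.toEuclideanLin C y) k = ∑ l, C k l * y l := by
        simp [Matrix.toEuclideanLin, Matrix.mulVec, dotProduct]
      rw [e]
      simp only [RCLike.inner_apply, conj_trivial]
      rw [Finset.sum_mul]
      refine Finset.sum_congr rfl fun l _ => ?_
      ring
    rw [conjBy_apply, bm, e1, e1]
    push_cast
    rw [Finset.sum_mul, ← Finset.sum_add_distrib]
    refine Finset.sum_congr rfl fun l _ => ?_
    rw [Finset.sum_mul, ← Finset.sum_add_distrib]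
    refine Finset.sum_congr rfl fun k _ => ?_
    have e2 : M k l = ((A k l : ℝ) : ℂ) + ((B k l : ℝ) : ℂ) * I := (Complex.re_add_im _).symm
    rw [e2]
    change (b i k : ℂ) * _ * (b j l : ℂ) = _
    ring
  refine ⟨O, hO, ?_⟩
  intro r s' t h
  rw [hent, hent, hent, hb0, hb1, hb2] at h
  exact hbad r s' t h

end Pool.Agent.K3h48.AC
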