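import Pool.Agent.K3h48.AC.Mat

/-!
# Truncated Toeplitz operators without modified Aleksandrov-Clark representations

Let `M` be a complex symmetric `n × n` matrix which is unitarily equivalent to a truncated Toeplitz
operator.  Then all matrices `Oᵀ M O` with `O` real orthogonal are complex symmetric and unitarily
equivalent to the same operator.  We show that all of them are matrices of truncated Toeplitz
operators in modified Aleksandrov-Clark bases exactly if `n ≤ 2` or `M` is a multiple of the unit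
matrix.
-/

set_option autoImplicit false

open MeasureTheory AddCircle
open scoped ENNReal ComplexConjugate

namespace Pool.Agent.K3h48.AC

noncomputable section

/-- The unit circle, parametrised by `t ↦ exp (2 π i t)`. -/
abbrev Circ : Type := AddCircle (1 : ℝ)

/-- The normalised Lebesgue measure of the unit circle. -/
def σ : Measure Circ := haarAddCircle

/-- The point `exp (2 π i t)` of the unit circle. -/
def pt (t : Circ) : ℂ := fourier 1 t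

/-- `L²` of the unit circle. -/
abbrev L2 : Type := Lp ℂ 2 σ

/-- The element `f` of `L²` as a function (defined up to sets of measure `0`). -/
def fn (f : L2) : Circ → ℂ := ⇑f

/-- The monomial `z ^ k` as an element of `L²`. -/
def mono (k : ℤ) : L2 := (fourierLp 2 k : Lp ℂ 2 (haarAddCircle (T := (1 : ℝ))))

/-- The Hardy space `H²`: the functions in `L²` which are orthogonal to `z ^ (-1), z ^ (-2), …`. -/
def H2 : Submodule ℂ L2 := (Submodule.span ℂ (Set.range fun n : ℕ => mono (-((n : ℤ) + 1))))ᗮ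

/-- Finite Blaschke products of degree `n`, the inner functions whose model space has dimension
`n`. -/
def IsBlaschke (n : ℕ) (Θ : ℂ → ℂ) : Prop :=
  ∃ (c : ℂ) (a : Fin n → ℂ), ‖c‖ = 1 ∧ (∀ i, ‖a i‖ < 1) ∧
    Θ = fun z => c * ∏ i, (z - a i) / (1 - conj (a i) * z)

/-- The space `Θ H²`. -/
def thetaH2 (Θ : ℂ → ℂ) : Set L2 := {h | ∃ g ∈ H2, fn h =ᵐ[σ] fun t => Θ (pt t) * fn g t}

/-- The model space `K_Θ = H² ⊖ Θ H²`. -/
def model (Θ : ℂ → ℂ) : Submodule ℂ L2 := H2 ⊓ (Submodule.span ℂ (thetaH2 Θ))ᗮ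

/-- The elements of the model space `K_Θ`. -/
abbrev K (Θ : ℂ → ℂ) : Type := model Θ

/-- `A` is the truncated Toeplitz operator on `K_Θ` with the symbol `φ ∈ L^∞`: `A f` is the
orthogonal projection onto `K_Θ` of the product `h = φ f ∈ L²`. -/
def IsTTO (Θ : ℂ → ℂ) (φ : Circ → ℂ) (A : K Θ → K Θ) : Prop :=
  MemLp φ ∞ σ ∧ ∀ f : K Θ, ∃ h : L2, (fn h =ᵐ[σ] fun t => φ t * fn f t) ∧
    h - A f ∈ (model Θ)ᗮ

/-- `b` is an orthonormal basis of the model space. -/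
def IsONB {n : ℕ} (Θ : ℂ → ℂ) (b : Fin n → K Θ) : Prop :=
  Orthonormal ℂ (fun j => (b j : L2)) ∧ Submodule.span ℂ (Set.range fun j => (b j : L2)) = model Θ

/-- `M` is the matrix of the operator `A` with respect to the orthonormal basis `b`, that is,
`M i j = ⟨A b_j, b_i⟩` (the inner product of Mathlib is linear in the second variable). -/
def IsMatrixOf {n : ℕ} {Θ : ℂ → ℂ} (M : Matrix (Fin n) (Fin n) ℂ) (A : K Θ → K Θ)
    (b : Fin n → K Θ) : Prop :=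
  ∀ i j, M i j = inner ℂ (b i : L2) (A (b j) : L2)

/-- The boundary kernel `k_ζ (z) = (1 - conj α Θ(z)) / (1 - conj ζ z)`. -/
def kern (Θ : ℂ → ℂ) (α ζ z : ℂ) : ℂ := (1 - conj α * Θ z) / (1 - conj ζ * z)

/-- The norm of `k_ζ` in `L²`. -/
def kernNorm (Θ : ℂ → ℂ) (α ζ : ℂ) : ℝ := √(∫ t : Circ, ‖kern Θ α ζ (pt t)‖ ^ 2 ∂σ)

/-- The basis `b` of the model space of the finite Blaschke product `Θ` of degree `n` is a modified
Aleksandrov-Clark basis: for some `α` on the circle and the `n` distinct solutions `ζ_j` of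
`Θ(ζ) = α` on the circle, `b_j = w_j k_{ζ_j} / ‖k_{ζ_j}‖`, where `|w_j| = 1` and
`w_j ^ 2 = α conj ζ_j`. -/
def IsModifiedAC {n : ℕ} (Θ : ℂ → ℂ) (b : Fin n → K Θ) : Prop :=
  ∃ (α : ℂ) (ζ w : Fin n → ℂ), ‖α‖ = 1 ∧ Function.Injective ζ ∧
    (∀ j, ‖ζ j‖ = 1 ∧ Θ (ζ j) = α ∧ ‖w j‖ = 1 ∧ w j ^ 2 = α * conj (ζ j)) ∧
    ∀ j, fn (b j) =ᵐ[σ] fun t => w j * (kern Θ α (ζ j) (pt t) / (kernNorm Θ α (ζ j) : ℂ))

/-- `M` is unitarily equivalent to a truncated Toeplitz operator: it is the matrix of such an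
operator with respect to some orthonormal basis of its model space. -/
def UnitarilyEquivalentToTTO {n : ℕ} (M : Matrix (Fin n) (Fin n) ℂ) : Prop :=
  ∃ (Θ : ℂ → ℂ) (φ : Circ → ℂ) (A : K Θ → K Θ) (b : Fin n → K Θ),
    IsBlaschke n Θ ∧ IsTTO Θ φ A ∧ IsONB Θ b ∧ IsMatrixOf M A b

/-- `M` is the matrix of a truncated Toeplitz operator with respect to a modified
Aleksandrov-Clark basis of its model space. -/
def HasModifiedACRepresentation {n : ℕ} (M : Matrix (Fin n) (Fin n) ℂ) : Prop :=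
  ∃ (Θ : ℂ → ℂ) (φ : Circ → ℂ) (A : K Θ → K Θ) (b : Fin n → K Θ),
    IsBlaschke n Θ ∧ IsTTO Θ φ A ∧ IsONB Θ b ∧ IsModifiedAC Θ b ∧ IsMatrixOf M A b

/-! ### The negative part -/

lemma norm_pt (t : Circ) : ‖pt t‖ = 1 := by
  unfold pt
  rw [fourier_one]
  exact Circle.norm_coe _

lemma conj_mul_self {z : ℂ} (h : ‖z‖ = 1) : conj z * z = 1 := by
  rw [Complex.conj_mul', h]; simp

/-- the product of two normalised kernels -/
lemma prod_eq (w0 w1 ζ0 ζ1 α F z : ℂ) (N0 N1 : ℝ) (hα : ‖α‖ = 1) (hz : ‖z‖ = 1) (h0 : ‖ζ0‖ = 1)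
    (k0 : ‖w0‖ = 1) (q0 : w0 ^ 2 = α * conj ζ0)
    (z0 : 1 - conj ζ0 * z ≠ 0) (z1 : 1 - conj ζ1 * z ≠ 0) (n0 : (N0 : ℂ) ≠ 0) (n1 : (N1 : ℂ) ≠ 0) :
    conj (w0 * (F / (1 - conj ζ0 * z) / (N0 : ℂ))) * (w1 * (F / (1 - conj ζ1 * z) / (N1 : ℂ))) =
      -(conj α * z * (conj F * F)) * (w0 * w1) /
        ((1 - conj ζ0 * z) * (1 - conj ζ1 * z) * N0 * N1) := by
  have cα := conj_mul_self hα
  have cz := conj_mul_self hz
  have c0 := conj_mul_self h0
  have d0 := conj_mul_self k0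
  set D0 := 1 - conj ζ0 * z with hD0
  set D1 := 1 - conj ζ1 * z with hD1
  have hden : conj D0 * (conj ζ0 * z) = -D0 := by
    rw [hD0, map_sub, map_one, map_mul, Complex.conj_conj]
    linear_combination (-(conj z * z)) * c0 - cz
  have hD0' : conj D0 ≠ 0 := by
    intro h
    rw [h, zero_mul] at hden
    exact z0 (by linear_combination hden)
  have hw : conj w0 * conj ζ0 = conj α * w0 := by
    linear_combination (conj w0 * conj α) * q0 * (-1) - (conj w0 * conj ζ0) * cα +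
      (conj α * w0) * d0
  rw [map_mul, map_div₀, map_div₀, Complex.conj_ofReal]
  have e : conj F / conj D0 = -(conj F * (conj ζ0 * z)) / D0 := by
    rw [div_eq_div_iff hD0' z0]
    linear_combination (conj F) * hden
  rw [e]
  field_simp
  linear_combination (-(conj F * z * F * w1)) * hw

/-- the pointwise identity -/
lemma pointwise (w0 w1 w2 ζ0 ζ1 ζ2 α F z : ℂ) (N0 N1 N2 : ℝ)
    (hα : ‖α‖ = 1) (hz : ‖z‖ = 1) (h0 : ‖ζ0‖ = 1) (h1 : ‖ζ1‖ = 1)
    (k0 : ‖w0‖ = 1) (k1 : ‖w1‖ = 1) (k2 : ‖w2‖ = 1)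
    (q0 : w0 ^ 2 = α * conj ζ0) (q1 : w1 ^ 2 = α * conj ζ1) (q2 : w2 ^ 2 = α * conj ζ2)
    (n0 : N0 ≠ 0) (n1 : N1 ≠ 0) (n2 : N2 ≠ 0)
    (z0 : 1 - conj ζ0 * z ≠ 0) (z1 : 1 - conj ζ1 * z ≠ 0) (z2 : 1 - conj ζ2 * z ≠ 0)
    (a0 a1 a2 : ℝ) (hrel : (a0 : ℂ) * w0 + a1 * w1 + a2 * w2 = 0) :
    ((a2 / N2 : ℝ) : ℂ) * (conj (w0 * (F / (1 - conj ζ0 * z) / (N0 : ℂ))) *
        (w1 * (F / (1 - conj ζ1 * z) / (N1 : ℂ)))) +
      ((a0 / N0 : ℝ) : ℂ) * (conj (w1 * (F / (1 - conj ζ1 * z) / (N1 : ℂ))) *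
        (w2 * (F / (1 - conj ζ2 * z) / (N2 : ℂ)))) +
      ((a1 / N1 : ℝ) : ℂ) * (conj (w0 * (F / (1 - conj ζ0 * z) / (N0 : ℂ))) *
        (w2 * (F / (1 - conj ζ2 * z) / (N2 : ℂ)))) = 0 := by
  have m0 : (N0 : ℂ) ≠ 0 := by exact_mod_cast n0
  have m1 : (N1 : ℂ) ≠ 0 := by exact_mod_cast n1
  have m2 : (N2 : ℂ) ≠ 0 := by exact_mod_cast n2
  rw [prod_eq w0 w1 ζ0 ζ1 α F z N0 N1 hα hz h0 k0 q0 z0 z1 m0 m1,
    prod_eq w1 w2 ζ1 ζ2 α F z N1 N2 hα hz h1 k1 q1 z1 z2 m1 m2,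
    prod_eq w0 w2 ζ0 ζ2 α F z N0 N2 hα hz h0 k0 q0 z0 z2 m0 m2]
  have cα := conj_mul_self hα
  have d0 := conj_mul_self k0
  have d1 := conj_mul_self k1
  have d2 := conj_mul_self k2
  have e0 : conj ζ0 = conj α * w0 ^ 2 := by linear_combination (-conj α) * q0 - conj ζ0 * cα
  have e1 : conj ζ1 = conj α * w1 ^ 2 := by linear_combination (-conj α) * q1 - conj ζ1 * cα
  have e2 : conj ζ2 = conj α * w2 ^ 2 := by linear_combination (-conj α) * q2 - conj ζ2 * cα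
  -- relation for the conjugates
  have hrel' : (a0 : ℂ) * conj w0 + a1 * conj w1 + a2 * conj w2 = 0 := by
    have := congrArg conj hrel
    simpa using this
  have key : (a2 : ℂ) * (w0 * w1) * (1 - conj ζ2 * z) + a0 * (w1 * w2) * (1 - conj ζ0 * z) +
      a1 * (w0 * w2) * (1 - conj ζ1 * z) = 0 := by
    rw [e0, e1, e2]
    linear_combination (w0 * w1 * w2) * hrel' - (a0 * w1 * w2) * d0 - (a1 * w0 * w2) * d1 -
      (a2 * w0 * w1) * d2 - (conj α * z * (w0 * w1 * w2)) * hrel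
  set D0 := 1 - conj ζ0 * z with hD0
  set D1 := 1 - conj ζ1 * z with hD1
  set D2 := 1 - conj ζ2 * z with hD2
  have e : ((a2 / N2 : ℝ) : ℂ) * (-(conj α * z * (conj F * F)) * (w0 * w1) / (D0 * D1 * N0 * N1)) +
      ((a0 / N0 : ℝ) : ℂ) * (-(conj α * z * (conj F * F)) * (w1 * w2) / (D1 * D2 * N1 * N2)) +
      ((a1 / N1 : ℝ) : ℂ) * (-(conj α * z * (conj F * F)) * (w0 * w2) / (D0 * D2 * N0 * N2)) =
      (-(conj α * z * (conj F * F)) / (D0 * D1 * D2 * N0 * N1 * N2)) *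
        ((a2 : ℂ) * (w0 * w1) * D2 + a0 * (w1 * w2) * D0 + a1 * (w0 * w2) * D1) := by
    push_cast
    field_simp
    ring
  rw [e, key, mul_zero]

/-- three complex numbers satisfy a real relation -/
lemma exists_rel (w0 w1 w2 : ℂ) :
    (((w1 * conj w2).im : ℝ) : ℂ) * w0 + (((w2 * conj w0).im : ℝ) : ℂ) * w1 +
      (((w0 * conj w1).im : ℝ) : ℂ) * w2 = 0 := by
  apply Complex.ext <;> simp <;> ring

/-- the coefficients do not vanish -/
lemma coeff_ne {w0 w1 ζ0 ζ1 α : ℂ} (hα : ‖α‖ = 1) (k0 : ‖w0‖ = 1) (k1 : ‖w1‖ = 1)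
    (q0 : w0 ^ 2 = α * conj ζ0) (q1 : w1 ^ 2 = α * conj ζ1) (h : ζ0 ≠ ζ1) :
    (w0 * conj w1).im ≠ 0 := by
  intro him
  have d0 := conj_mul_self k0
  have d1 := conj_mul_self k1
  have cα := conj_mul_self hα
  have h1 : conj (w0 * conj w1) = w0 * conj w1 := Complex.conj_eq_iff_im.2 him
  rw [map_mul, Complex.conj_conj] at h1
  -- `w0 ^ 2 = w1 ^ 2`
  have h2 : w0 ^ 2 = w1 ^ 2 := by
    linear_combination (-(w0 * w1)) * h1 + w1 ^ 2 * d0 - w0 ^ 2 * d1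
  apply h
  have h3 : conj ζ0 = conj ζ1 := by
    linear_combination (-conj α) * q0 - conj ζ0 * cα + conj α * q1 + conj ζ1 * cα + conj α * h2
  have := congrArg conj h3
  simpa using this

lemma pt_injective : Function.Injective pt := by
  intro s t h
  unfold pt at h
  rw [fourier_one, fourier_one] at h
  exact injective_toCircle one_ne_zero (Subtype.ext h)

lemma null_singleton (t : Circ) : σ {t} = 0 := by
  have h1 := volume_eq_smul_haarAddCircle (T := (1 : ℝ))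
  rw [ENNReal.ofReal_one, one_smul] at h1
  unfold σ
  rw [← h1, ← Metric.closedBall_zero, AddCircle.volume_closedBall]
  simp

lemma ae_ne (ζ : ℂ) : ∀ᵐ t ∂σ, 1 - conj ζ * pt t ≠ 0 := by
  have hs : {t : Circ | ¬ (1 - conj ζ * pt t ≠ 0)}.Subsingleton := by
    intro s hs t ht
    simp only [Set.mem_ofPred_eq, not_not] at hs ht
    apply pt_injective
    have hne : conj ζ ≠ 0 := by
      intro h
      rw [h] at hs
      simp at hs
    apply mul_left_cancel₀ hne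
    linear_combination ht - hs
  change σ {t : Circ | ¬ (1 - conj ζ * pt t ≠ 0)} = 0
  rcases hs.eq_empty_or_singleton with h | ⟨t, h⟩
  · rw [h]; exact measure_empty
  · rw [h]; exact null_singleton t

/-! #### elements of `L²` as functions -/

lemma inner_fn (f g : L2) : inner ℂ f g = ∫ t, conj (fn f t) * fn g t ∂σ := by
  rw [MeasureTheory.L2.inner_def]
  apply integral_congr_ae
  filter_upwards with t
  rw [RCLike.inner_apply, mul_comm]
  rfl

lemma inner_integrable (f g : L2) : Integrable (fun t => conj (fn f t) * fn g t) σ := by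
  have h := MeasureTheory.L2.integrable_inner (𝕜 := ℂ) f g
  refine h.congr ?_
  filter_upwards with t
  rw [RCLike.inner_apply, mul_comm]
  rfl

lemma ext_fn {f g : L2} (h : fn f =ᵐ[σ] fn g) : f = g := Lp.ext h

lemma fn_smul (c : ℂ) (f : L2) : fn (c • f) =ᵐ[σ] fun t => c * fn f t := by
  have h := Lp.coeFn_smul c f
  filter_upwards [h] with t ht
  exact ht

lemma fn_mono (k : ℤ) : fn (mono k) =ᵐ[σ] fun t => fourier k t := by
  have h := coeFn_fourierLp (T := (1 : ℝ)) 2 k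
  exact h

/-- the entries of the matrix of a truncated Toeplitz operator -/
lemma entry {Θ : ℂ → ℂ} {φ : Circ → ℂ} {A : model Θ → model Θ} (hA : IsTTO Θ φ A)
    (f g : model Θ) :
    inner ℂ (f : L2) (A g : L2) = ∫ t, conj (fn f t) * (φ t * fn g t) ∂σ ∧
      Integrable (fun t => conj (fn f t) * (φ t * fn g t)) σ := by
  obtain ⟨h, h1, h2⟩ := hA.2 g
  constructor
  · have h3 : inner ℂ (f : L2) (A g : L2) = inner ℂ (f : L2) h := by
      have h4 := (Submodule.mem_orthogonal _ _).1 h2 f f.2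
      rw [inner_sub_right, sub_eq_zero] at h4
      exact h4.symm
    rw [h3, inner_fn]
    apply integral_congr_ae
    filter_upwards [h1] with t ht
    rw [ht]
  · refine (inner_integrable (f : L2) h).congr ?_
    filter_upwards [h1] with t ht
    rw [ht]

lemma kernNorm_ne {Θ : ℂ → ℂ} {α ζ w : ℂ} (f : model Θ) (hf : ‖(f : L2)‖ = 1)
    (h : fn f =ᵐ[σ] fun t => w * (kern Θ α ζ (pt t) / (kernNorm Θ α ζ : ℂ))) :
    kernNorm Θ α ζ ≠ 0 := by
  intro h0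
  rw [h0] at h
  have h1 : (f : L2) = 0 := by
    apply ext_fn
    have h3 := Lp.coeFn_zero ℂ 2 σ
    filter_upwards [h, h3] with t ht ht3
    rw [ht]
    have : fn 0 t = 0 := ht3
    rw [this]
    simp
  rw [h1, norm_zero] at hf
  exact zero_ne_one hf

/-- **The real relation.** -/
theorem relation {n : ℕ} {Θ : ℂ → ℂ} {φ : Circ → ℂ} {A : model Θ → model Θ} (hA : IsTTO Θ φ A)
    {b : Fin n → model Θ} (hon : IsONB Θ b) (hb : IsModifiedAC Θ b)
    {M : Matrix (Fin n) (Fin n) ℂ} (hM : IsMatrixOf M A b) {i0 i1 i2 : Fin n}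
    (hi01 : i0 ≠ i1) (hi12 : i1 ≠ i2) (hi20 : i2 ≠ i0) :
    ∃ r s u : ℝ, r ≠ 0 ∧ s ≠ 0 ∧ u ≠ 0 ∧
      (r : ℂ) * M i0 i1 + (s : ℂ) * M i1 i2 + (u : ℂ) * M i0 i2 = 0 := by
  obtain ⟨α, ζ, w, hα, hinj, hj, hbj⟩ := hb
  have hN : ∀ j, kernNorm Θ α (ζ j) ≠ 0 := fun j => kernNorm_ne (b j) (hon.1.1 j) (hbj j)
  have h01 : ζ i0 ≠ ζ i1 := fun h => hi01 (hinj h)
  have h12 : ζ i1 ≠ ζ i2 := fun h => hi12 (hinj h)
  have h20 : ζ i2 ≠ ζ i0 := fun h => hi20 (hinj h)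
  set a0 : ℝ := (w i1 * conj (w i2)).im with ha0
  set a1 : ℝ := (w i2 * conj (w i0)).im with ha1
  set a2 : ℝ := (w i0 * conj (w i1)).im with ha2
  have k0 : a0 ≠ 0 := coeff_ne hα (hj i1).2.2.1 (hj i2).2.2.1 (hj i1).2.2.2 (hj i2).2.2.2 h12
  have k1 : a1 ≠ 0 := coeff_ne hα (hj i2).2.2.1 (hj i0).2.2.1 (hj i2).2.2.2 (hj i0).2.2.2 h20
  have k2 : a2 ≠ 0 := coeff_ne hα (hj i0).2.2.1 (hj i1).2.2.1 (hj i0).2.2.2 (hj i1).2.2.2 h01
  refine ⟨a2 / kernNorm Θ α (ζ i2), a0 / kernNorm Θ α (ζ i0), a1 / kernNorm Θ α (ζ i1),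
    div_ne_zero k2 (hN i2), div_ne_zero k0 (hN i0), div_ne_zero k1 (hN i1), ?_⟩
  obtain ⟨E1, J1⟩ := entry hA (b i0) (b i1)
  obtain ⟨E2, J2⟩ := entry hA (b i1) (b i2)
  obtain ⟨E3, J3⟩ := entry hA (b i0) (b i2)
  have I1 := J1.const_mul (((a2 / kernNorm Θ α (ζ i2) : ℝ) : ℂ))
  have I2 := J2.const_mul (((a0 / kernNorm Θ α (ζ i0) : ℝ) : ℂ))
  have I3 := J3.const_mul (((a1 / kernNorm Θ α (ζ i1) : ℝ) : ℂ))
  have I12 : Integrable (fun t => ((a2 / kernNorm Θ α (ζ i2) : ℝ) : ℂ) *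
      (conj (fn (b i0) t) * (φ t * fn (b i1) t)) + ((a0 / kernNorm Θ α (ζ i0) : ℝ) : ℂ) *
      (conj (fn (b i1) t) * (φ t * fn (b i2) t))) σ := I1.add I2
  rw [hM i0 i1, hM i1 i2, hM i0 i2, E1, E2, E3,
    ← integral_const_mul, ← integral_const_mul, ← integral_const_mul,
    ← integral_add I1 I2, ← integral_add I12 I3]
  refine integral_eq_zero_of_ae ?_
  filter_upwards [hbj i0, hbj i1, hbj i2, ae_ne (ζ i0), ae_ne (ζ i1), ae_ne (ζ i2)]
    with t t0 t1 t2 d0 d1 d2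
  have h := pointwise (w i0) (w i1) (w i2) (ζ i0) (ζ i1) (ζ i2) α (1 - conj α * Θ (pt t)) (pt t)
    (kernNorm Θ α (ζ i0)) (kernNorm Θ α (ζ i1)) (kernNorm Θ α (ζ i2)) hα (norm_pt t) (hj i0).1 (hj i1).1
    (hj i0).2.2.1 (hj i1).2.2.1 (hj i2).2.2.1 (hj i0).2.2.2 (hj i1).2.2.2 (hj i2).2.2.2 (hN i0) (hN i1) (hN i2)
    d0 d1 d2 a0 a1 a2 (exists_rel _ _ _)
  rw [t0, t1, t2]
  unfold kern
  simp only [Pi.zero_apply]
  linear_combination (φ t) * h


end

end Pool.Agent.K3h48.AC
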