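import Pool.Agent.K3h48.AC.Neg

/-!
# Truncated Toeplitz operators: change of the basis and the model space of `z ^ n`
-/

set_option autoImplicit false

open MeasureTheory AddCircle
open scoped ENNReal ComplexConjugate

namespace Pool.Agent.K3h48.AC

noncomputable section

/-! ### linearity and change of the basis -/

section lin

variable {Θ : ℂ → ℂ} {φ : Circ → ℂ} {A : model Θ → model Θ}

lemma fn_add (f g : L2) : fn (f + g) =ᵐ[σ] fun t => fn f t + fn g t := by
  have h := Lp.coeFn_add f g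
  filter_upwards [h] with t ht
  exact ht

lemma eq_of_sub_mem {x y : model Θ} (h : (x : L2) - y ∈ (model Θ)ᗮ) : x = y := by
  have h1 : (x : L2) - y ∈ model Θ := (model Θ).sub_mem x.2 y.2
  have h2 := (Submodule.mem_orthogonal _ _).1 h _ h1
  rw [inner_self_eq_zero, sub_eq_zero] at h2
  exact Subtype.ext h2

lemma map_add' (hA : IsTTO Θ φ A) (f g : model Θ) : A (f + g) = A f + A g := by
  obtain ⟨h1, e1, m1⟩ := hA.2 f
  obtain ⟨h2, e2, m2⟩ := hA.2 g
  obtain ⟨h3, e3, m3⟩ := hA.2 (f + g)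
  apply eq_of_sub_mem
  have h : h3 = h1 + h2 := by
    apply ext_fn
    filter_upwards [e1, e2, e3, fn_add h1 h2, fn_add (f : L2) g] with t t1 t2 t3 t4 t5
    rw [t3, t4, t1, t2]
    have t6 : fn ((f + g : model Θ) : L2) t = fn (f : L2) t + fn (g : L2) t := t5
    rw [t6]
    ring
  have e : ((A (f + g) : model Θ) : L2) - ((A f + A g : model Θ) : L2) =
      (h1 - A f) + (h2 - A g) - (h3 - A (f + g)) := by
    rw [h, Submodule.coe_add]
    abel
  rw [e]
  exact (model Θ)ᗮ.sub_mem ((model Θ)ᗮ.add_mem m1 m2) m3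

lemma map_smul' (hA : IsTTO Θ φ A) (c : ℂ) (f : model Θ) : A (c • f) = c • A f := by
  obtain ⟨h1, e1, m1⟩ := hA.2 f
  obtain ⟨h3, e3, m3⟩ := hA.2 (c • f)
  apply eq_of_sub_mem
  have h : h3 = c • h1 := by
    apply ext_fn
    filter_upwards [e1, e3, fn_smul c h1, fn_smul c (f : L2)] with t t1 t3 t4 t5
    rw [t3, t4, t1]
    have t6 : fn ((c • f : model Θ) : L2) t = c * fn (f : L2) t := t5
    rw [t6]
    ring
  have e : ((A (c • f) : model Θ) : L2) - ((c • A f : model Θ) : L2) =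
      c • (h1 - A f) - (h3 - A (c • f)) := by
    rw [h, Submodule.coe_smul, smul_sub]
    abel
  rw [e]
  exact (model Θ)ᗮ.sub_mem ((model Θ)ᗮ.smul_mem c m1) m3

/-- the linear map -/
def lin (hA : IsTTO Θ φ A) : model Θ →ₗ[ℂ] model Θ where
  toFun := A
  map_add' := map_add' hA
  map_smul' := map_smul' hA

variable {n : ℕ}

/-- the new basis -/
def newBasis (U : Matrix (Fin n) (Fin n) ℂ) (b : Fin n → model Θ) (j : Fin n) : model Θ :=
  ∑ k, U k j • b k

lemma newBasis_coe (U : Matrix (Fin n) (Fin n) ℂ) (b : Fin n → model Θ) (j : Fin n) :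
    ((newBasis U b j : model Θ) : L2) = ∑ k, U k j • (b k : L2) := by
  unfold newBasis
  rw [AddSubmonoidClass.coe_finsetSum]
  rfl

lemma newBasis_onb {U : Matrix (Fin n) (Fin n) ℂ} (hU : U.conjTranspose * U = 1)
    {b : Fin n → model Θ} (hb : IsONB Θ b) : IsONB Θ (newBasis U b) := by
  have hU' : U * U.conjTranspose = 1 := mul_eq_one_comm.1 hU
  constructor
  · rw [orthonormal_iff_ite]
    intro i j
    simp only [newBasis_coe]
    rw [hb.1.inner_sum (fun k => U k i) (fun k => U k j) Finset.univ]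
    have h := congrFun (congrFun hU i) j
    rw [Matrix.mul_apply, Matrix.one_apply] at h
    rw [← h]
    rfl
  · apply le_antisymm
    · rw [Submodule.span_le]
      rintro _ ⟨j, rfl⟩
      exact (newBasis U b j).2
    · refine hb.2.symm.le.trans ?_
      rw [Submodule.span_le]
      rintro _ ⟨k, rfl⟩
      have e : (b k : L2) = ∑ j, conj (U k j) • ((newBasis U b j : model Θ) : L2) := by
        simp only [newBasis_coe, Finset.smul_sum, smul_smul]
        rw [Finset.sum_comm]
        simp only [← Finset.sum_smul]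
        have h : ∀ l, ∑ j, conj (U k j) * U l j = if l = k then 1 else 0 := by
          intro l
          have h := congrFun (congrFun hU' l) k
          rw [Matrix.mul_apply, Matrix.one_apply] at h
          rw [← h]
          refine Finset.sum_congr rfl fun j _ => ?_
          rw [Matrix.conjTranspose_apply, mul_comm]
          rfl
        simp only [h]
        simp
      rw [SetLike.mem_coe]
      change (b k : L2) ∈ _
      rw [e]
      exact Submodule.sum_mem _ fun j _ => Submodule.smul_mem _ _ (Submodule.subset_span ⟨j, rfl⟩)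

lemma newBasis_matrix (hA : IsTTO Θ φ A) (U : Matrix (Fin n) (Fin n) ℂ)
    {b : Fin n → model Θ} {M : Matrix (Fin n) (Fin n) ℂ} (hM : IsMatrixOf M A b) :
    IsMatrixOf (U.conjTranspose * M * U) A (newBasis U b) := by
  intro i j
  have h1 : A (newBasis U b j) = ∑ l, U l j • A (b l) := by
    change lin hA (newBasis U b j) = ∑ l, U l j • lin hA (b l)
    unfold newBasis
    rw [map_sum]
    exact Finset.sum_congr rfl fun l _ => map_smul _ _ _
  rw [h1, newBasis_coe, AddSubmonoidClass.coe_finsetSum, inner_sum]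
  rw [Matrix.mul_apply]
  refine Finset.sum_congr rfl fun l _ => ?_
  rw [Submodule.coe_smul, inner_smul_right, sum_inner, Matrix.mul_apply, Finset.sum_mul,
    Finset.mul_sum]
  refine Finset.sum_congr rfl fun k _ => ?_
  rw [inner_smul_left, ← hM k l, Matrix.conjTranspose_apply]
  change conj (U k i) * M k l * U l j = U l j * (conj (U k i) * M k l)
  ring

end lin

lemma conj_ofReal_map {n : ℕ} (O : Matrix (Fin n) (Fin n) ℝ) :
    (O.map Complex.ofReal).conjTranspose = (O.map Complex.ofReal).transpose := by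
  ext i j
  simp [Matrix.conjTranspose_apply]

lemma unitary_of_orth {n : ℕ} {O : Matrix (Fin n) (Fin n) ℝ} (hO : O.transpose * O = 1) :
    (O.map Complex.ofReal).conjTranspose * O.map Complex.ofReal = 1 := by
  rw [conj_ofReal_map]
  have h := congrArg (fun X : Matrix (Fin n) (Fin n) ℝ => X.map Complex.ofRealHom) hO
  simp only [Matrix.map_mul, Matrix.map_one Complex.ofRealHom (map_zero _) (map_one _)] at h
  exact h

theorem conj_tto {n : ℕ} {M : Matrix (Fin n) (Fin n) ℂ} (h : UnitarilyEquivalentToTTO M)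
    {O : Matrix (Fin n) (Fin n) ℝ} (hO : O.transpose * O = 1) :
    UnitarilyEquivalentToTTO (conjBy O M) := by
  obtain ⟨Θ, φ, A, b, hΘ, hA, hb, hM⟩ := h
  refine ⟨Θ, φ, A, newBasis (O.map Complex.ofReal) b, hΘ, hA, newBasis_onb (unitary_of_orth hO) hb,
    ?_⟩
  have h1 := newBasis_matrix hA (O.map Complex.ofReal) hM
  rw [conj_ofReal_map] at h1
  exact h1

theorem neg_part {n : ℕ} (h3 : 3 ≤ n) {M : Matrix (Fin n) (Fin n) ℂ} (hM : M.IsSymm)
    (hns : ∀ c : ℂ, M ≠ c • 1) :
    ∃ O : Matrix (Fin n) (Fin n) ℝ, O.transpose * O = 1 ∧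
      ¬ HasModifiedACRepresentation (conjBy O M) := by
  obtain ⟨O, hO, h⟩ := exists_conj h3 hM hns
  refine ⟨O, hO, ?_⟩
  rintro ⟨Θ, φ, A, b, -, hA, hon, hb, hMat⟩
  obtain ⟨r, s, u, hr, hs, hu, h1⟩ := relation hA hon hb hMat (i0 := ⟨0, by omega⟩)
    (i1 := ⟨1, by omega⟩) (i2 := ⟨2, by omega⟩) (by simp) (by simp) (by simp)
  rcases h r s u h1 with h2 | h2 | h2
  · exact hr h2
  · exact hs h2
  · exact hu h2

/-! ### The model space of `z ^ n` -/

lemma orthonormal_mono : Orthonormal ℂ mono := orthonormal_fourier (T := (1 : ℝ))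

lemma inner_mono (i j : ℤ) : inner ℂ (mono i) (mono j) = if i = j then 1 else 0 :=
  (orthonormal_iff_ite.1 orthonormal_mono) i j

lemma mem_H2_iff (f : L2) : f ∈ H2 ↔ ∀ k : ℤ, k < 0 → inner ℂ (mono k) f = 0 := by
  unfold H2
  rw [Submodule.mem_orthogonal]
  constructor
  · intro h k hk
    apply h
    apply Submodule.subset_span
    refine ⟨(-k - 1).toNat, ?_⟩
    have : -((((-k - 1).toNat : ℕ) : ℤ) + 1) = k := by omega
    simp only [this]
  · intro h u hu
    induction hu using Submodule.span_induction with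
    | mem x hx =>
      obtain ⟨n, rfl⟩ := hx
      exact h _ (by omega)
    | zero => exact inner_zero_left _
    | add x y _ _ hx hy => rw [inner_add_left, hx, hy, add_zero]
    | smul c x _ hx => rw [inner_smul_left, hx, mul_zero]

lemma mono_mem_H2 (k : ℤ) (hk : 0 ≤ k) : mono k ∈ H2 := by
  rw [mem_H2_iff]
  intro j hj
  rw [inner_mono, if_neg (by omega)]

/-- the inner function `z ^ n` -/
def pw (n : ℕ) : ℂ → ℂ := fun z => z ^ n

lemma isBlaschke_pw (n : ℕ) : IsBlaschke n (pw n) := by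
  refine ⟨1, fun _ => 0, by simp, fun _ => by simp, ?_⟩
  funext z
  simp [pw]

lemma pt_pow (t : Circ) (n : ℕ) : pt t ^ n = fourier (n : ℤ) t := by
  unfold pt
  rw [fourier_one, fourier_apply]
  simp [toCircle_nsmul]

/-- multiplication by `z ^ n` and the monomials -/
lemma inner_pw {n : ℕ} {g h : L2} (hgh : fn h =ᵐ[σ] fun t => pw n (pt t) * fn g t)
    (k : ℤ) : inner ℂ (mono k) h = inner ℂ (mono (k - n)) g := by
  rw [inner_fn, inner_fn]
  apply integral_congr_ae
  filter_upwards [hgh, fn_mono k, fn_mono (k - n)] with t h1 h2 h3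
  rw [h1, h2, h3]
  unfold pw
  rw [pt_pow]
  have e : (fourier k t : ℂ) = fourier (n : ℤ) t * fourier (k - n) t := by
    rw [← fourier_add]
    congr 1
    ring_nf
  have e2 : conj (fourier (n : ℤ) t : ℂ) * fourier (n : ℤ) t = 1 := by
    apply conj_mul_self
    rw [fourier_apply]
    exact Circle.norm_coe _
  rw [e, map_mul]
  linear_combination (fn g t * conj (fourier (k - n) t)) * e2

lemma mono_mem {n : ℕ} (k : ℤ) (h0 : 0 ≤ k) (h3 : k < n) : mono k ∈ model (pw n) := by
  refine ⟨mono_mem_H2 k h0, ?_⟩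
  rw [SetLike.mem_coe, Submodule.mem_orthogonal]
  intro u hu
  induction hu using Submodule.span_induction with
  | mem x hx =>
    obtain ⟨g, hg, hx⟩ := hx
    rw [← inner_conj_symm, inner_pw hx k, (mem_H2_iff g).1 hg _ (by omega), map_zero]
  | zero => exact inner_zero_left _
  | add x y _ _ hx hy => rw [inner_add_left, hx, hy, add_zero]
  | smul c x _ hx => rw [inner_smul_left, hx, mul_zero]

lemma coeff_zero {n : ℕ} {f : L2} (hf : f ∈ model (pw n)) (k : ℤ) (hk : k < 0 ∨ n ≤ k) :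
    inner ℂ (mono k) f = 0 := by
  obtain ⟨h1, h2⟩ := hf
  rcases hk with hk | hk
  · exact (mem_H2_iff f).1 h1 k hk
  · rw [SetLike.mem_coe, Submodule.mem_orthogonal] at h2
    apply h2
    apply Submodule.subset_span
    refine ⟨mono (k - n), mono_mem_H2 _ (by omega), ?_⟩
    filter_upwards [fn_mono k, fn_mono (k - n)] with t h3 h4
    rw [h3, h4]
    unfold pw
    rw [pt_pow, ← fourier_add]
    congr 1
    ring_nf

lemma exp_Lp (f : Lp ℂ 2 (haarAddCircle (T := (1 : ℝ)))) :
    HasSum (fun i : ℤ => inner ℂ (fourierLp 2 i) f • fourierLp 2 i) f := by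
  have h := (fourierBasis (T := (1 : ℝ))).hasSum_repr f
  simp only [HilbertBasis.repr_apply_apply, coe_fourierBasis] at h
  exact h

/-- the monomial basis of the model space -/
def mb (n : ℕ) (j : Fin n) : model (pw n) :=
  ⟨mono ((j : ℕ) : ℤ), mono_mem _ (by positivity) (by exact_mod_cast j.2)⟩

lemma mb_onb (n : ℕ) : IsONB (pw n) (mb n) := by
  constructor
  · exact orthonormal_mono.comp (fun i : Fin n => ((i : ℕ) : ℤ)) (by
      intro i j h
      have h' : ((i : ℕ) : ℤ) = ((j : ℕ) : ℤ) := h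
      exact Fin.ext (by exact_mod_cast h'))
  · apply le_antisymm
    · rw [Submodule.span_le]
      rintro _ ⟨j, rfl⟩
      exact (mb n j).2
    · intro f hf
      have h1 : HasSum (fun i : ℤ => inner ℂ (mono i) f • mono i) f := by
        exact exp_Lp f
      have h2 : HasSum (fun i : ℤ => inner ℂ (mono i) f • mono i)
          (∑ i ∈ (Finset.univ.image fun j : Fin n => ((j : ℕ) : ℤ)), inner ℂ (mono i) f • mono i) := by
        apply hasSum_sum_of_ne_finset_zero
        intro i hi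
        rw [coeff_zero hf i, zero_smul]
        by_contra hcon
        push Not at hcon
        apply hi
        rw [Finset.mem_image]
        exact ⟨⟨i.toNat, by omega⟩, Finset.mem_univ _, by simp; omega⟩
      rw [h1.unique h2]
      refine Submodule.sum_mem _ fun i hi => Submodule.smul_mem _ _ ?_
      obtain ⟨j, -, rfl⟩ := Finset.mem_image.1 hi
      exact Submodule.subset_span ⟨j, rfl⟩

lemma isClosed_model (Θ : ℂ → ℂ) : IsClosed (model Θ : Set L2) := by
  unfold model H2
  rw [Submodule.coe_inf]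
  exact (Submodule.isClosed_orthogonal _).inter (Submodule.isClosed_orthogonal _)

instance (Θ : ℂ → ℂ) : CompleteSpace (model Θ) := (isClosed_model Θ).completeSpace_coe

/-- the symbol `a + b z + c / z` -/
def sy (a b c : ℂ) : Lp ℂ ∞ (haarAddCircle (T := (1 : ℝ))) :=
  a • fourierLp ∞ 0 + b • fourierLp ∞ 1 + c • fourierLp ∞ (-1)

/-- the symbol as a function -/
def syf (a b c : ℂ) : Circ → ℂ := fun t => a + b * fourier 1 t + c * fourier (-1) t

lemma sy_coe (a b c : ℂ) : (sy a b c : Circ → ℂ) =ᵐ[haarAddCircle] syf a b c := by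
  have h1 := Lp.coeFn_add (a • fourierLp (T := (1 : ℝ)) ∞ 0 + b • fourierLp ∞ 1)
    (c • fourierLp ∞ (-1))
  have h2 := Lp.coeFn_add (a • fourierLp (T := (1 : ℝ)) ∞ 0) (b • fourierLp ∞ 1)
  have h3 := Lp.coeFn_smul a (fourierLp (T := (1 : ℝ)) ∞ 0)
  have h4 := Lp.coeFn_smul b (fourierLp (T := (1 : ℝ)) ∞ 1)
  have h5 := Lp.coeFn_smul c (fourierLp (T := (1 : ℝ)) ∞ (-1))
  have h6 := coeFn_fourierLp (T := (1 : ℝ)) ∞ 0
  have h7 := coeFn_fourierLp (T := (1 : ℝ)) ∞ 1
  have h8 := coeFn_fourierLp (T := (1 : ℝ)) ∞ (-1)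
  unfold sy
  filter_upwards [h1, h2, h3, h4, h5, h6, h7, h8] with t h1 h2 h3 h4 h5 h6 h7 h8
  rw [h1, Pi.add_apply, h2, Pi.add_apply, h3, h4, h5, Pi.smul_apply, Pi.smul_apply, Pi.smul_apply,
    h6, h7, h8]
  simp [syf]

/-- the multiplication by the symbol on `L²` -/
def mulLp (a b c : ℂ) :
    Lp ℂ 2 (haarAddCircle (T := (1 : ℝ))) →L[ℂ] Lp ℂ 2 (haarAddCircle (T := (1 : ℝ))) :=
  (ContinuousLinearMap.mul ℂ ℂ).holderL (haarAddCircle (T := (1 : ℝ))) ∞ 2 2 (sy a b c)

lemma mulLp_fn (a b c : ℂ) (f : Lp ℂ 2 (haarAddCircle (T := (1 : ℝ)))) :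
    (mulLp a b c f : Circ → ℂ) =ᵐ[haarAddCircle] fun t => syf a b c t * f t := by
  have h1 := (ContinuousLinearMap.mul ℂ ℂ).coeFn_holder (μ := haarAddCircle (T := (1 : ℝ)))
    (p := ∞) (q := 2) (r := 2) (sy a b c) f
  change (((ContinuousLinearMap.mul ℂ ℂ).holder 2 (sy a b c) f :
    Lp ℂ 2 (haarAddCircle (T := (1 : ℝ)))) : Circ → ℂ) =ᵐ[haarAddCircle] _
  filter_upwards [h1, sy_coe a b c] with t h1 h2
  rw [h1, h2]
  rfl

/-- the multiplication by the symbol on `L²` -/
def mulOp (a b c : ℂ) : L2 →L[ℂ] L2 := mulLp a b c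

lemma mulOp_fn (a b c : ℂ) (f : L2) : fn (mulOp a b c f) =ᵐ[σ] fun t => syf a b c t * fn f t :=
  mulLp_fn a b c f

/-- the truncated Toeplitz operator -/
def TT (Θ : ℂ → ℂ) (a b c : ℂ) (f : model Θ) : model Θ :=
  (model Θ).orthogonalProjectionOnto (mulOp a b c f)

lemma sy_memLp (a b c : ℂ) : MemLp (syf a b c) ∞ σ := by
  have h : MemLp (sy a b c : Circ → ℂ) ∞ (haarAddCircle (T := (1 : ℝ))) := Lp.memLp _
  exact h.ae_eq (sy_coe a b c)

lemma isTTO (Θ : ℂ → ℂ) (a b c : ℂ) : IsTTO Θ (syf a b c) (TT Θ a b c) := by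
  refine ⟨sy_memLp a b c, fun f => ⟨mulOp a b c f, mulOp_fn a b c f, ?_⟩⟩
  exact (model Θ).sub_starProjection_mem_orthogonal (mulOp a b c f)

lemma mulOp_mono (a b c : ℂ) (k : ℤ) :
    mulOp a b c (mono k) = a • mono k + b • mono (k + 1) + c • mono (k - 1) := by
  apply ext_fn
  filter_upwards [mulOp_fn a b c (mono k), fn_smul a (mono k), fn_smul b (mono (k + 1)),
    fn_smul c (mono (k - 1)), fn_mono k, fn_mono (k + 1), fn_mono (k - 1),
    fn_add (a • mono k) (b • mono (k + 1)),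
    fn_add (a • mono k + b • mono (k + 1)) (c • mono (k - 1))] with t h1 h2 h3 h4 h5 h6 h7 h8 h9
  rw [h1, h9, h8, h2, h3, h4, h5, h6, h7]
  have e1 : (fourier (k + 1) t : ℂ) = fourier k t * fourier 1 t := by rw [fourier_add]
  have e2 : (fourier (k - 1) t : ℂ) = fourier k t * fourier (-1) t := by
    rw [sub_eq_add_neg, fourier_add]
  rw [e1, e2]
  unfold syf
  ring

/-- the Toeplitz matrix -/
def toep (n : ℕ) (a b c : ℂ) : Matrix (Fin n) (Fin n) ℂ := Matrix.of fun i j =>
  (if (i : ℕ) = j then a else 0) + (if (i : ℕ) = j + 1 then b else 0) +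
    (if (i : ℕ) + 1 = j then c else 0)

lemma toep_matrix (n : ℕ) (a b c : ℂ) : IsMatrixOf (toep n a b c) (TT (pw n) a b c) (mb n) := by
  intro i j
  have h : inner ℂ (mb n i : L2) (TT (pw n) a b c (mb n j) : L2) =
      inner ℂ (mono ((i : ℕ) : ℤ)) (mulOp a b c (mono ((j : ℕ) : ℤ))) :=
    Submodule.inner_orthogonalProjectionOnto_eq_of_mem_left (mb n i) (mulOp a b c _)
  rw [h, mulOp_mono, inner_add_right, inner_add_right, inner_smul_right, inner_smul_right,
    inner_smul_right, inner_mono, inner_mono, inner_mono]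
  have e1 : (((i : ℕ) : ℤ) = ((j : ℕ) : ℤ)) ↔ (i : ℕ) = j := by omega
  have e2 : (((i : ℕ) : ℤ) = ((j : ℕ) : ℤ) + 1) ↔ (i : ℕ) = j + 1 := by omega
  have e3 : (((i : ℕ) : ℤ) = ((j : ℕ) : ℤ) - 1) ↔ (i : ℕ) + 1 = j := by omega
  simp only [e1, e2, e3, mul_ite, mul_one, mul_zero]
  rfl

end

end Pool.Agent.K3h48.AC
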