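import Mathlib

/-!
# Complex symmetric matrices and real relations between the entries of a triple
-/

set_option autoImplicit false

namespace Pool.Agent.K3h48.AC

open Complex

section

variable {E : Type*} [NormedAddCommGroup E] [InnerProductSpace ℝ E]

/-- the complex bilinear form of `X + i Y` -/
noncomputable def bm (X Y : E →ₗ[ℝ] E) (u v : E) : ℂ :=
  ((inner ℝ u (X v) : ℝ) : ℂ) + ((inner ℝ u (Y v) : ℝ) : ℂ) * I

/-- no real relation with nonzero coefficients -/
def Bad (X Y : E →ₗ[ℝ] E) (u v w : E) : Prop :=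
  ∀ r s t : ℝ, (r : ℂ) * bm X Y u v + s * bm X Y v w + t * bm X Y u w = 0 →
    r = 0 ∨ s = 0 ∨ t = 0

/-- three orthonormal vectors -/
structure Tri (u v w : E) : Prop where
  uu : inner ℝ u u = 1
  vv : inner ℝ v v = 1
  ww : inner ℝ w w = 1
  uv : inner ℝ u v = 0
  uw : inner ℝ u w = 0
  vw : inner ℝ v w = 0

lemma bad_of {X Y : E →ₗ[ℝ] E} {u v w : E}
    (h1 : inner ℝ u (X v) * inner ℝ v (Y w) = inner ℝ u (Y v) * inner ℝ v (X w))
    (h2 : inner ℝ u (X v) * inner ℝ u (Y w) - inner ℝ u (Y v) * inner ℝ u (X w) ≠ (0 : ℝ)) :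
    Bad X Y u v w := by
  intro r s t h
  have hre := congrArg Complex.re h
  have him := congrArg Complex.im h
  simp [bm] at hre him
  right; right
  have h3 : t * (inner ℝ u (X v) * inner ℝ u (Y w) - inner ℝ u (Y v) * inner ℝ u (X w)) = 0 := by
    linear_combination (inner ℝ u (X v)) * him - (inner ℝ u (Y v)) * hre - s * h1
  exact (mul_eq_zero.1 h3).resolve_right h2

lemma bad_of_zero {X Y : E →ₗ[ℝ] E} {u v w : E}
    (h1 : inner ℝ u (X v) ≠ (0 : ℝ) ∨ inner ℝ u (Y v) ≠ (0 : ℝ))
    (h2 : inner ℝ v (X w) = (0 : ℝ)) (h3 : inner ℝ v (Y w) = (0 : ℝ))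
    (h4 : inner ℝ u (X w) = (0 : ℝ)) (h5 : inner ℝ u (Y w) = (0 : ℝ)) :
    Bad X Y u v w := by
  intro r s t h
  have hre := congrArg Complex.re h
  have him := congrArg Complex.im h
  simp [bm, h2, h3, h4, h5] at hre him
  left
  rcases h1 with h1 | h1
  · exact hre.resolve_right h1
  · exact him.resolve_right h1

lemma case_one {X Y : E →ₗ[ℝ] E} (hX : X.IsSymmetric) (hY : Y.IsSymmetric) {u v w : E}
    (h : Tri u v w)
    (hd : inner ℝ u (X v) * inner ℝ u (Y w) - inner ℝ u (Y v) * inner ℝ u (X w) ≠ (0 : ℝ)) :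
    ∃ v' w', Tri u v' w' ∧ Bad X Y u v' w' := by
  let V : ℝ → E := fun t => Real.cos t • v + Real.sin t • w
  let W : ℝ → E := fun t => -Real.sin t • v + Real.cos t • w
  have hsX : inner ℝ w (X v) = (inner ℝ v (X w) : ℝ) := by
    rw [← hX w v, real_inner_comm]
  have hsY : inner ℝ w (Y v) = (inner ℝ v (Y w) : ℝ) := by
    rw [← hY w v, real_inner_comm]
  have hwv : inner ℝ w v = (0 : ℝ) := by rw [real_inner_comm, h.vw]
  have eVW : ∀ (T : E →ₗ[ℝ] E) (t : ℝ), (inner ℝ w (T v) = (inner ℝ v (T w) : ℝ)) →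
      inner ℝ (V t) (T (W t)) = (-(Real.cos t * Real.sin t) * inner ℝ v (T v) +
        (Real.cos t ^ 2 - Real.sin t ^ 2) * inner ℝ v (T w) +
        Real.cos t * Real.sin t * inner ℝ w (T w) : ℝ) := by
    intro T t hT
    simp only [V, W, map_add, map_smul, inner_add_left, inner_add_right, inner_smul_left,
      inner_smul_right, map_neg, neg_smul, inner_neg_right, RCLike.conj_to_real]
    rw [hT]
    ring
  have eV : ∀ (T : E →ₗ[ℝ] E) (t : ℝ),
      inner ℝ u (T (V t)) = (Real.cos t * inner ℝ u (T v) + Real.sin t * inner ℝ u (T w) : ℝ) := by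
    intro T t
    simp only [V, map_add, map_smul, inner_add_right, inner_smul_right]
  have eW : ∀ (T : E →ₗ[ℝ] E) (t : ℝ),
      inner ℝ u (T (W t)) = (-Real.sin t * inner ℝ u (T v) + Real.cos t * inner ℝ u (T w) : ℝ) := by
    intro T t
    simp only [W, map_add, map_smul, inner_add_right, inner_smul_right, neg_smul, map_neg,
      inner_neg_right]
    ring
  let F : ℝ → ℝ := fun t => inner ℝ u (X (V t)) * inner ℝ (V t) (Y (W t)) -
    inner ℝ u (Y (V t)) * inner ℝ (V t) (X (W t))
  have hF : F = fun t => (Real.cos t * inner ℝ u (X v) + Real.sin t * inner ℝ u (X w)) *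
      (-(Real.cos t * Real.sin t) * inner ℝ v (Y v) +
        (Real.cos t ^ 2 - Real.sin t ^ 2) * inner ℝ v (Y w) +
        Real.cos t * Real.sin t * inner ℝ w (Y w)) -
      (Real.cos t * inner ℝ u (Y v) + Real.sin t * inner ℝ u (Y w)) *
      (-(Real.cos t * Real.sin t) * inner ℝ v (X v) +
        (Real.cos t ^ 2 - Real.sin t ^ 2) * inner ℝ v (X w) +
        Real.cos t * Real.sin t * inner ℝ w (X w)) := by
    funext t
    simp only [F]
    rw [eV, eV, eVW Y t hsY, eVW X t hsX]
  have hc : Continuous F := by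
    rw [hF]
    fun_prop
  have hpi : F Real.pi = -F 0 := by
    rw [hF]
    simp
    ring
  obtain ⟨t, ht⟩ : (0 : ℝ) ∈ Set.range F := by
    rcases le_total (F 0) 0 with h0 | h0
    · exact mem_range_of_exists_le_of_exists_ge hc ⟨0, h0⟩ ⟨Real.pi, by rw [hpi]; linarith⟩
    · exact mem_range_of_exists_le_of_exists_ge hc ⟨Real.pi, by rw [hpi]; linarith⟩ ⟨0, h0⟩
  have hcs := Real.sin_sq_add_cos_sq t
  refine ⟨V t, W t, ⟨h.uu, ?_, ?_, ?_, ?_, ?_⟩, bad_of ?_ ?_⟩
  · simp only [V, inner_add_left, inner_add_right, inner_smul_left, inner_smul_right,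
      RCLike.conj_to_real, h.vv, h.ww, h.vw, hwv]
    linear_combination hcs
  · simp only [W, inner_add_left, inner_add_right, inner_smul_left, inner_smul_right,
      RCLike.conj_to_real, h.vv, h.ww, h.vw, hwv]
    linear_combination hcs
  · simp only [V, inner_add_right, inner_smul_right, h.uv, h.uw]
    ring
  · simp only [W, inner_add_right, inner_smul_right, h.uv, h.uw]
    ring
  · simp only [V, W, inner_add_left, inner_add_right, inner_smul_left, inner_smul_right,
      RCLike.conj_to_real, h.vv, h.ww, h.vw, hwv]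
    ring
  · have : F t = 0 := ht
    simp only [F] at this
    linarith
  · rw [eV, eW, eV, eW]
    intro h0
    apply hd
    linear_combination h0 - (inner ℝ u (X v) * inner ℝ u (Y w) -
      inner ℝ u (Y v) * inner ℝ u (X w) : ℝ) * hcs

/-- the rotated pair of an orthonormal pair -/
lemma tri_half {a b c : E} (h : Tri a b c) :
    Tri ((√2)⁻¹ • (a + b)) ((√2)⁻¹ • (a - b)) c ∧ Tri ((√2)⁻¹ • (a - b)) ((√2)⁻¹ • (a + b)) c := by
  have hba : inner ℝ b a = (0 : ℝ) := by rw [real_inner_comm, h.uv]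
  have hca : inner ℝ c a = (0 : ℝ) := by rw [real_inner_comm, h.uw]
  have hcb : inner ℝ c b = (0 : ℝ) := by rw [real_inner_comm, h.vw]
  have hs : (√2)⁻¹ * (√2)⁻¹ = (1 / 2 : ℝ) := by
    rw [← mul_inv, Real.mul_self_sqrt (by norm_num)]
    norm_num
  constructor
  · refine ⟨?_, ?_, h.ww, ?_, ?_, ?_⟩ <;>
    simp only [inner_add_left, inner_add_right, inner_sub_left, inner_sub_right, inner_smul_left,
      inner_smul_right, RCLike.conj_to_real, h.uu, h.vv, h.uv, hba, h.uw, h.vw]
    · linear_combination 2 * hs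
    · linear_combination 2 * hs
    · ring
    · ring
    · ring
  · refine ⟨?_, ?_, h.ww, ?_, ?_, ?_⟩ <;>
    simp only [inner_add_left, inner_add_right, inner_sub_left, inner_sub_right, inner_smul_left,
      inner_smul_right, RCLike.conj_to_real, h.uu, h.vv, h.uv, hba, h.uw, h.vw]
    · linear_combination 2 * hs
    · linear_combination 2 * hs
    · ring
    · ring
    · ring

lemma half_form {T : E →ₗ[ℝ] E} (hT : T.IsSymmetric) (a b : E) :
    inner ℝ ((√2)⁻¹ • (a + b)) (T ((√2)⁻¹ • (a - b))) =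
      ((inner ℝ a (T a) - inner ℝ b (T b)) / 2 : ℝ) := by
  have hs : (√2)⁻¹ * (√2)⁻¹ = (1 / 2 : ℝ) := by
    rw [← mul_inv, Real.mul_self_sqrt (by norm_num)]
    norm_num
  have hba : inner ℝ b (T a) = (inner ℝ a (T b) : ℝ) := by
    rw [← hT b a, real_inner_comm]
  simp only [map_sub, map_smul, inner_add_left, inner_sub_right, inner_smul_left,
    inner_smul_right, RCLike.conj_to_real, hba]
  linear_combination (inner ℝ a (T a) - inner ℝ b (T b) : ℝ) * hs

variable [FiniteDimensional ℝ E]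

/-- three eigenvectors of `Z` with `z_i ≠ z_j` -/
lemma exists_eig {n : ℕ} (hn : Module.finrank ℝ E = n) (h3 : 3 ≤ n) {Z : E →ₗ[ℝ] E}
    (hZ : Z.IsSymmetric) (hns : ∀ c : ℝ, Z ≠ c • LinearMap.id) :
    ∃ (a b c : E) (x y z : ℝ), Tri a b c ∧ Z a = x • a ∧ Z b = y • b ∧ Z c = z • c ∧ x ≠ y ∧
      x ≠ z := by
  let e := hZ.eigenvectorBasis hn
  let ev := hZ.eigenvalues hn
  have he : ∀ i, Z (e i) = ev i • e i := fun i => hZ.apply_eigenvectorBasis hn i
  have hon : ∀ i j, inner ℝ (e i) (e j) = if i = j then (1 : ℝ) else 0 :=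
    fun i j => orthonormal_iff_ite.1 e.orthonormal i j
  obtain ⟨i, j, hij⟩ : ∃ i j, ev i ≠ ev j := by
    by_contra hcon
    push Not at hcon
    have h0 : 0 < n := by omega
    apply hns (ev ⟨0, h0⟩)
    apply e.toBasis.ext
    intro i
    simp only [OrthonormalBasis.coe_toBasis, LinearMap.smul_apply, LinearMap.id_apply]
    rw [he i, hcon i ⟨0, h0⟩]
  have hij' : i ≠ j := fun h => hij (by rw [h])
  obtain ⟨k, hk⟩ : ∃ k : Fin n, k ∉ ({i, j} : Finset (Fin n)) := by
    by_contra hcon
    push Not at hcon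
    have h1 : (Finset.univ : Finset (Fin n)) ⊆ {i, j} := fun x _ => hcon x
    have h2 := Finset.card_le_card h1
    have h4 := Finset.card_le_two (a := i) (b := j)
    rw [Finset.card_univ, Fintype.card_fin] at h2
    omega
  simp only [Finset.mem_insert, Finset.mem_singleton, not_or] at hk
  by_cases hik : ev i = ev k
  · have hjk : ev j ≠ ev k := fun h => hij (by rw [hik, h])
    refine ⟨e j, e i, e k, ev j, ev i, ev k, ⟨?_, ?_, ?_, ?_, ?_, ?_⟩, he j, he i, he k,
      hij.symm, hjk⟩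
    · rw [hon, if_pos rfl]
    · rw [hon, if_pos rfl]
    · rw [hon, if_pos rfl]
    · rw [hon, if_neg hij'.symm]
    · rw [hon, if_neg (Ne.symm hk.2)]
    · rw [hon, if_neg (Ne.symm hk.1)]
  · refine ⟨e i, e j, e k, ev i, ev j, ev k, ⟨?_, ?_, ?_, ?_, ?_, ?_⟩, he i, he j, he k,
      hij, hik⟩
    · rw [hon, if_pos rfl]
    · rw [hon, if_pos rfl]
    · rw [hon, if_pos rfl]
    · rw [hon, if_neg hij']
    · rw [hon, if_neg (Ne.symm hk.1)]
    · rw [hon, if_neg (Ne.symm hk.2)]

theorem exists_bad {n : ℕ} (hn : Module.finrank ℝ E = n) (h3 : 3 ≤ n) {X Y : E →ₗ[ℝ] E}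
    (hX : X.IsSymmetric) (hY : Y.IsSymmetric)
    (hns : (∀ c : ℝ, X ≠ c • LinearMap.id) ∨ ∀ c : ℝ, Y ≠ c • LinearMap.id) :
    ∃ u v w, Tri u v w ∧ Bad X Y u v w := by
  by_cases hP : ∃ u v w : E, Tri u v w ∧
      inner ℝ u (X v) * inner ℝ u (Y w) - inner ℝ u (Y v) * inner ℝ u (X w) ≠ (0 : ℝ)
  · obtain ⟨u, v, w, h1, h2⟩ := hP
    obtain ⟨v', w', h3, h4⟩ := case_one hX hY h1 h2
    exact ⟨u, v', w', h3, h4⟩
  push Not at hP
  by_cases hXs : ∀ c : ℝ, X ≠ c • LinearMap.id
  · obtain ⟨a, b, c, x, y, z, ht, ha, hb, hc, hxy, hxz⟩ := exists_eig hn h3 hX hXs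
    -- the entries of `Y` vanish
    have key : ∀ {a b c : E} {x y z : ℝ}, Tri a b c → X a = x • a → X b = y • b → X c = z • c →
        x ≠ y → inner ℝ a (Y c) = (0 : ℝ) ∧ inner ℝ b (Y c) = (0 : ℝ) := by
      intro a b c x y z ht ha hb hc hxy
      obtain ⟨t1, t2⟩ := tri_half ht
      have e1 := hP _ _ _ t1
      have e2 := hP _ _ _ t2
      have hs : (√2)⁻¹ ≠ (0 : ℝ) := by positivity
      have hca : inner ℝ c a = (0 : ℝ) := by rw [real_inner_comm, ht.uw]
      have hcb : inner ℝ c b = (0 : ℝ) := by rw [real_inner_comm, ht.vw]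
      have f1 : inner ℝ ((√2)⁻¹ • (a + b)) (X c) = (0 : ℝ) := by
        rw [hc]
        simp only [inner_add_left, inner_smul_left, inner_smul_right, ht.uw, ht.vw]
        simp
      have f2 : inner ℝ ((√2)⁻¹ • (a - b)) (X c) = (0 : ℝ) := by
        rw [hc]
        simp only [inner_sub_left, inner_smul_left, inner_smul_right, ht.uw, ht.vw]
        simp
      have g1 := half_form hX a b
      have g2 : inner ℝ ((√2)⁻¹ • (a - b)) (X ((√2)⁻¹ • (a + b))) =
          ((inner ℝ a (X a) - inner ℝ b (X b)) / 2 : ℝ) := by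
        rw [← hX, real_inner_comm, g1]
      have g3 : (inner ℝ a (X a) : ℝ) = x := by
        rw [ha, inner_smul_right, ht.uu, mul_one]
      have g4 : (inner ℝ b (X b) : ℝ) = y := by
        rw [hb, inner_smul_right, ht.vv, mul_one]
      rw [f1, mul_zero, sub_zero, g1, g3, g4] at e1
      rw [f2, mul_zero, sub_zero, g2, g3, g4] at e2
      have hne : (x - y) / 2 ≠ 0 := by
        intro h
        apply hxy
        linarith
      have h1 := (mul_eq_zero.1 e1).resolve_left hne
      have h2 := (mul_eq_zero.1 e2).resolve_left hne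
      rw [inner_smul_left, RCLike.conj_to_real, inner_add_left] at h1
      rw [inner_smul_left, RCLike.conj_to_real, inner_sub_left] at h2
      have h1' := (mul_eq_zero.1 h1).resolve_left hs
      have h2' := (mul_eq_zero.1 h2).resolve_left hs
      constructor <;> linarith
    obtain ⟨k1, k2⟩ := key ht ha hb hc hxy
    obtain ⟨t1, -⟩ := tri_half ht
    refine ⟨_, _, _, t1, bad_of_zero (Or.inl ?_) ?_ ?_ ?_ ?_⟩
    · rw [half_form hX, ha, hb, inner_smul_right, inner_smul_right, ht.uu, ht.vv]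
      intro h
      apply hxy
      linarith
    · rw [hc]
      simp only [inner_sub_left, inner_smul_left, inner_smul_right, ht.uw, ht.vw]
      simp
    · simp only [inner_sub_left, inner_smul_left, k1, k2]
      simp
    · rw [hc]
      simp only [inner_add_left, inner_smul_left, inner_smul_right, ht.uw, ht.vw]
      simp
    · simp only [inner_add_left, inner_smul_left, k1, k2]
      simp
  · push Not at hXs
    obtain ⟨c0, hX0⟩ := hXs
    have hYs : ∀ c : ℝ, Y ≠ c • LinearMap.id := by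
      rcases hns with h | h
      · exact absurd hX0 (h c0)
      · exact h
    obtain ⟨a, b, c, x, y, z, ht, ha, hb, hc, hxy, hxz⟩ := exists_eig hn h3 hY hYs
    obtain ⟨t1, -⟩ := tri_half ht
    have hXv : ∀ v, X v = c0 • v := by
      intro v
      rw [hX0]
      rfl
    refine ⟨_, _, _, t1, bad_of_zero (Or.inr ?_) ?_ ?_ ?_ ?_⟩
    · rw [half_form hY, ha, hb, inner_smul_right, inner_smul_right, ht.uu, ht.vv]
      intro h
      apply hxy
      linarith
    · rw [hXv]
      simp only [inner_sub_left, inner_smul_left, inner_smul_right, ht.uw, ht.vw]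
      simp
    · rw [hc]
      simp only [inner_sub_left, inner_smul_left, inner_smul_right, ht.uw, ht.vw]
      simp
    · rw [hXv]
      simp only [inner_add_left, inner_smul_left, inner_smul_right, ht.uw, ht.vw]
      simp
    · rw [hc]
      simp only [inner_add_left, inner_smul_left, inner_smul_right, ht.uw, ht.vw]
      simp

end

end Pool.Agent.K3h48.AC
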